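import Pool.Agent.Q221.CBER.Defs
import Pool.Agent.Q221.CBER.Example
import Pool.Agent.Q221.CBER.Zero

set_option autoImplicit false

open Set Topology TopologicalSpace Pool.Agent.Q221.CE

namespace Pool.Agent.Results.MP_04fd10_lc.FiniteClassesAndZeroDimension

/-- (1) An obstruction to realizations on the Cantor space: for every `n` the set of the points
whose class has at least `n` elements is empty or uncountable.
(2) There is a CBER on an uncountable standard Borel space which has a compact action realization
but no realization on the Cantor space.
(3) A CBER with only infinite classes, on an uncountable standard Borel space, has a realization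
on the Cantor space iff it has one on some totally disconnected compact metrizable space. -/
theorem result :
    (∀ (X : Type) [MeasurableSpace X] [StandardBorelSpace X] (E : Setoid X), CBER E →
      Realizes E (ℕ → Bool) → ∀ n : ℕ, Big E n = ∅ ∨ ¬ (Big E n).Countable) ∧
    (∃ (X : Type) (_ : MeasurableSpace X) (_ : StandardBorelSpace X) (_ : Uncountable X)
      (E : Setoid X), CBER E ∧ CompactRealization E ∧ ¬ Realizes E (ℕ → Bool)) ∧
    (∀ (X : Type) [MeasurableSpace X] [StandardBorelSpace X] [Uncountable X] (E : Setoid X),
      CBER E → (∀ x, {y | E x y}.Infinite) →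
      (Realizes E (ℕ → Bool) ↔
        ∃ (K : Type) (_ : TopologicalSpace K) (_ : CompactSpace K) (_ : MetrizableSpace K)
          (_ : TotallyDisconnectedSpace K), Realizes E K)) := by
  refine ⟨?_, ?_, ?_⟩
  · intro X _ _ E _ h n
    rcases (Big E n).eq_empty_or_nonempty with h0 | h0
    · exact Or.inl h0
    · exact Or.inr (big_uncountable h n h0)
  · exact ⟨KK, inferInstance, inferInstance, uncountable_KK, EE, cber_EE, realizes_EE,
      not_cantor_EE⟩
  · intro X _ _ _ E hE hinf
    constructor
    · intro h
      exact ⟨ℕ → Bool, inferInstance, inferInstance, inferInstance, inferInstance, h⟩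
    · rintro ⟨K, _, _, _, _, h⟩
      exact cantor_of_zero hE hinf K h

end Pool.Agent.Results.MP_04fd10_lc.FiniteClassesAndZeroDimension
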